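import Mathlib
import Pool.Agent.H911Z.Hjelm.Defs
import Pool.Agent.H911Z.Hjelm.Main

namespace Pool.Agent.Results.MP_4f92f0_co.NonProjective

open Pool.Agent.H911Z.Hjelm

/-- Over the Galois ring `ZMod 25` (so `q = 5`, `q^2 + q = 30`) there is a maximal
`(685, 27)`-arc of the projective Hjelmslev plane with a point of multiplicity two. -/
theorem result : ∃ K : Point (ZMod 25) → ℕ, IsMaximalArc K 685 27 ∧ ∃ x, K x = 2 :=
  main

end Pool.Agent.Results.MP_4f92f0_co.NonProjective
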